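import Pool.Agent.helper54.XP.SpecL

set_option autoImplicit false

open Complex Metric Set Filter Topology MeasureTheory XP
open V3S (UF)

noncomputable section

namespace XPL

/-- **BEN** -/
theorem BEN (hAFF : AFF_stmt) (hBA1 : BA1_stmt) : BEN_stmt := by
  intro n C η ζ D hHL hST hB
  obtain ⟨A, hA, hgood⟩ := hHL.seq.good
  obtain ⟨-, hAff⟩ := hAFF n C D hHL hST
  have hη := hB.eta.1
  have h1 := hAff 2 (by norm_num) (η / 4) (by linarith)
  obtain ⟨m, hm⟩ := h1.exists
  obtain ⟨-, -, -, -, -, -, hdiff, -, -, -, -, hp0, hFp, -, -, hder⟩ := hBA1 n C (A m) (D m) (hgood m)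
  have hkK : (D m).k ≤ (D m).K := by
    have h := hHL.par.N1 m
    show (D m).k ≤ (D m).N * (D m).k
    exact Nat.le_mul_of_pos_left _ h
  have hAk : (D m).A (D m).k = PPS.rho (D m).f (D m).b := by
    have h := hder 0
    rw [hp0] at h
    exact h
  have hF0 : (D m).F (D m).k 0 = 0 := by
    rw [hFp, ZMod.natCast_self, hp0]
  have hrho2 := (hgood m).rho2
  set ρ : ℂ := PPS.rho (D m).f (D m).b with hρ
  obtain ⟨x, hx1, hx2⟩ := (hB.gb m).far
  have hd : ∀ y ∈ ball (0 : ℂ) 2, DifferentiableAt ℂ (fun y => (D m).F (D m).k y - ρ * y) y := by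
    intro y _
    exact ((hdiff _) y).sub ((differentiableAt_const _).mul differentiableAt_id)
  have hbound : ∀ y ∈ ball (0 : ℂ) 2, ‖deriv (fun y => (D m).F (D m).k y - ρ * y) y‖ ≤ η / 2 := by
    intro y hy
    have h2 : deriv (fun y => (D m).F (D m).k y - ρ * y) y = deriv ((D m).F (D m).k) y - ρ := by
      have e1 : HasDerivAt ((D m).F (D m).k) (deriv ((D m).F (D m).k) y) y := ((hdiff _) y).hasDerivAt
      have e2 : HasDerivAt (fun y : ℂ => ρ * y) ρ y := by
        simpa using (hasDerivAt_id y).const_mul ρ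
      exact (e1.sub e2).deriv
    rw [h2]
    have h3 := hm (D m).k hkK y hy
    rw [hAk] at h3
    calc _ ≤ η / 4 * ‖ρ‖ := h3
      _ ≤ η / 4 * 2 := by gcongr
      _ = η / 2 := by ring
  have hmv := (convex_ball (0 : ℂ) 2).norm_image_sub_le_of_norm_deriv_le hd hbound
    (mem_ball_self (by norm_num)) (y := x) (by rw [mem_ball_zero_iff, hx1]; norm_num)
  simp only [hF0, mul_zero, sub_zero, hx1, mul_one] at hmv
  rw [hx2] at hmv
  linarith

end XPL
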