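import Pool.Agent.helper60.XP.SpecE

set_option autoImplicit false

open Complex Metric Set Filter Topology MeasureTheory
open V3 (En ZL)

noncomputable section

namespace XPE

/-- `exp (2πi x/t) = 1` exactly on the lattice line. -/
theorem PEN_exp1 (t : ℂ) (ht : t ≠ 0) (x : ℂ) :
    exp (2 * Real.pi * I * x / t) = 1 ↔ x ∈ ZL t := by
  rw [Complex.exp_eq_one_iff]
  have hpi : (2 * (Real.pi : ℂ) * I) ≠ 0 := Complex.two_pi_I_ne_zero
  constructor
  · rintro ⟨n, hn⟩
    refine ⟨n, ?_⟩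
    rw [div_eq_iff ht] at hn
    have h1 : (2 * (Real.pi : ℂ) * I) * x = (2 * (Real.pi : ℂ) * I) * (n * t) := by
      rw [hn]; ring
    exact (mul_left_cancel₀ hpi h1).symm
  · rintro ⟨n, rfl⟩
    refine ⟨n, ?_⟩
    field_simp

theorem PEN_shift (t : ℂ) (ht : t ≠ 0) (x : ℂ) :
    exp (2 * Real.pi * I * (t + x) / t) = exp (2 * Real.pi * I * x / t) := by
  have : 2 * (Real.pi : ℂ) * I * (t + x) / t = 2 * Real.pi * I * x / t + 2 * Real.pi * I := by
    field_simp; ring
  rw [this, Complex.exp_periodic]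

/-- The case `B = (α y² + β y)/(y - 1)²`. -/
theorem PEN_core (hSQC : V3.SQC_stmt) (hPCO : V3.PCO_stmt) (P : Set ℂ) (A g B v q : ℂ → ℂ) (θ : ℂ)
    (hL : Lim P A g B v q θ) (hA : ∀ p ∈ P, A p = 1) (t' α β : ℂ) (ht' : t' ≠ 0) (hP' : P = ZL t')
    (hsum : α + β = (2 * Real.pi * I / t') ^ 2)
    (hB : ∀ x ∉ P, B x = (α * exp (2 * Real.pi * I * x / t') ^ 2 +
      β * exp (2 * Real.pi * I * x / t')) / (exp (2 * Real.pi * I * x / t') - 1) ^ 2)
    (v2B : ∀ x ∉ P, v x ^ 2 * B x = 1) :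
    ∃ t' c' : ℂ, t' ≠ 0 ∧ P = ZL t' ∧ c' ≠ 0 ∧
    (∀ x, v x = c' * (1 - exp (-(2 * Real.pi * I * x / t')))) ∧ ∀ x ∉ P, v x ^ 2 * B x = 1 := by
  obtain ⟨s₀, hs₀, hsep⟩ := hL.sep
  obtain ⟨-, -, hconn⟩ := hPCO P s₀ hs₀ hsep
  have hpi : (2 * (Real.pi : ℂ) * I) ≠ 0 := Complex.two_pi_I_ne_zero
  set L : ℂ := 2 * Real.pi * I / t' with hLdef
  have hL0 : L ≠ 0 := div_ne_zero hpi ht'
  have hL2 : L ^ 2 ≠ 0 := pow_ne_zero 2 hL0
  have hy1 : ∀ x ∉ P, exp (2 * Real.pi * I * x / t') ≠ 1 := by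
    intro x hx h1
    rw [PEN_exp1 t' ht' x, ← hP'] at h1
    exact hx h1
  have hcv : ContinuousOn v Pᶜ := hL.vd.continuous.continuousOn
  -- step 1
  have hab : α = 0 ∨ β = 0 := by
    by_contra hne
    push Not at hne
    obtain ⟨ha, hb⟩ := hne
    have hw0 : -β / α ≠ 0 := div_ne_zero (neg_ne_zero.mpr hb) ha
    have hw1 : -β / α ≠ 1 := by
      intro h
      rw [div_eq_one_iff_eq ha] at h
      apply hL2
      rw [← hsum, ← h]; ring
    set x : ℂ := t' * Complex.log (-β / α) / (2 * Real.pi * I) with hx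
    have hxe : exp (2 * Real.pi * I * x / t') = -β / α := by
      have : 2 * (Real.pi : ℂ) * I * x / t' = Complex.log (-β / α) := by
        rw [hx]; field_simp
      rw [this, Complex.exp_log hw0]
    have hxP : x ∉ P := by
      intro hxP
      rw [hP', ← PEN_exp1 t' ht' x, hxe] at hxP
      exact hw1 hxP
    have h1 := v2B x hxP
    rw [hB x hxP, hxe] at h1
    have h2 : α * (-β / α) ^ 2 + β * (-β / α) = 0 := by
      field_simp; ring
    rw [h2, zero_div, mul_zero] at h1
    exact zero_ne_one h1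
  rcases hab with ha | hb
  · -- case α = 0
    exfalso
    have hβ : β = L ^ 2 := by rw [← hsum, ha]; ring
    have hβ0 : β ≠ 0 := by rw [hβ]; exact hL2
    set G : ℂ → ℂ := fun x => 1 / L * (exp (2 * Real.pi * I * x / t') - 1) *
      exp (-(2 * Real.pi * I * x / t') / 2) with hG
    have hGc : ContinuousOn G Pᶜ := by
      apply Continuous.continuousOn
      fun_prop
    have hG0 : ∀ x ∈ Pᶜ, G x ≠ 0 := by
      intro x hx
      exact mul_ne_zero (mul_ne_zero (one_div_ne_zero hL0) (sub_ne_zero.mpr (hy1 x hx)))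
        (Complex.exp_ne_zero _)
    have hsq : ∀ x ∈ Pᶜ, v x ^ 2 = G x ^ 2 := by
      intro x hx
      have h1 := v2B x hx
      rw [hB x hx, ha, hβ] at h1
      have hy : exp (2 * Real.pi * I * x / t') - 1 ≠ 0 := sub_ne_zero.mpr (hy1 x hx)
      have hy0 : exp (2 * Real.pi * I * x / t') ≠ 0 := Complex.exp_ne_zero _
      have hhalf : exp (-(2 * Real.pi * I * x / t') / 2) ^ 2 =
          (exp (2 * Real.pi * I * x / t'))⁻¹ := by
        rw [← Complex.exp_nat_mul, ← Complex.exp_neg]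
        congr 1
        push_cast
        ring
      rw [hG]
      simp only
      rw [mul_pow, mul_pow, hhalf]
      generalize exp (2 * Real.pi * I * x / t') = y at *
      rw [zero_mul, zero_add] at h1
      field_simp at h1 ⊢
      linear_combination h1
    obtain ⟨σ, hσ, hvG⟩ := hSQC Pᶜ v G hconn hcv hGc hG0 hsq
    -- a point off P
    set x₀ : ℂ := t' / 2 with hx₀
    have hx₀P : x₀ ∉ P := by
      rw [hP', ← PEN_exp1 t' ht']
      have : 2 * (Real.pi : ℂ) * I * x₀ / t' = Real.pi * I := by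
        rw [hx₀]; field_simp
      rw [this, Complex.exp_pi_mul_I]
      norm_num
    have hx₁P : t' + x₀ ∉ P := by
      rw [hP', ← PEN_exp1 t' ht', PEN_shift t' ht', PEN_exp1 t' ht', ← hP']
      exact hx₀P
    have ht'P : t' ∈ P := by
      rw [hP']; exact ⟨1, by simp⟩
    have hv1 : v (t' + x₀) = v x₀ := by
      have := hL.vA t' ht'P x₀
      rw [hA t' ht'P, one_mul, one_mul] at this
      exact this
    have hG1 : G (t' + x₀) = -G x₀ := by
      rw [hG]
      simp only
      rw [PEN_shift t' ht' x₀]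
      have : -(2 * (Real.pi : ℂ) * I * (t' + x₀) / t') / 2 =
          -(2 * (Real.pi : ℂ) * I * x₀ / t') / 2 + -(Real.pi * I) := by
        field_simp; ring
      rw [this, Complex.exp_add, Complex.exp_neg (Real.pi * I), Complex.exp_pi_mul_I]
      ring
    have e1 := hvG x₀ hx₀P
    have e2 := hvG (t' + x₀) hx₁P
    rw [hv1, hG1] at e2
    have e3 : v x₀ = 0 := by
      have h2 : (2 : ℂ) * v x₀ = 0 := by linear_combination e1 + e2
      rcases mul_eq_zero.mp h2 with h | h
      · norm_num at h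
      · exact h
    have := v2B x₀ hx₀P
    rw [e3] at this
    norm_num at this
  · -- case β = 0
    have hα : α = L ^ 2 := by rw [← hsum, hb]; ring
    set G : ℂ → ℂ := fun x => 1 / L * (1 - exp (-(2 * Real.pi * I * x / t'))) with hG
    have hGc : ContinuousOn G Pᶜ := by
      apply Continuous.continuousOn
      fun_prop
    have hG0 : ∀ x ∈ Pᶜ, G x ≠ 0 := by
      intro x hx
      refine mul_ne_zero (one_div_ne_zero hL0) (sub_ne_zero.mpr ?_)
      intro h
      rw [Complex.exp_neg] at h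
      exact hy1 x hx (inv_eq_one.mp h.symm)
    have hsq : ∀ x ∈ Pᶜ, v x ^ 2 = G x ^ 2 := by
      intro x hx
      have h1 := v2B x hx
      rw [hB x hx, hb, hα] at h1
      have hy : exp (2 * Real.pi * I * x / t') - 1 ≠ 0 := sub_ne_zero.mpr (hy1 x hx)
      have hy0 : exp (2 * Real.pi * I * x / t') ≠ 0 := Complex.exp_ne_zero _
      rw [hG]
      simp only
      rw [Complex.exp_neg]
      generalize exp (2 * Real.pi * I * x / t') = y at *
      rw [zero_mul, add_zero] at h1
      field_simp at h1 ⊢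
      linear_combination h1
    obtain ⟨σ, hσ, hvG⟩ := hSQC Pᶜ v G hconn hcv hGc hG0 hsq
    have hσ0 : σ ≠ 0 := by
      rcases hσ with h | h <;> rw [h] <;> norm_num
    refine ⟨t', σ / L, ht', hP', div_ne_zero hσ0 hL0, ?_, v2B⟩
    intro x
    by_cases hx : x ∈ P
    · rw [(hL.v0 x hx).1]
      rw [hP', ← PEN_exp1 t' ht' x] at hx
      rw [Complex.exp_neg, hx]
      norm_num
    · rw [hvG x hx, hG]
      simp only
      ring

/-- **PEN** -/
theorem PEN (hPRAT : PRAT_stmt) (hPQC : PQC_stmt) (hPVG : PVG_stmt) (hVB1 : VB1_stmt)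
    (hSQC : V3.SQC_stmt) (hPCO : V3.PCO_stmt) : PEN_stmt := by
  intro P A g B v q θ t hL ht hP hA
  obtain ⟨α, β, γ, hsum, hB⟩ := hPRAT P A g B v q θ t hL ht hP hA
  obtain ⟨⟨c, hqc⟩, hq0⟩ := hPQC P A g B v q θ t α β γ hL ht hP hA hsum hB
  have hαγ : α = 0 ∨ γ = 0 := by
    by_contra hne
    push Not at hne
    exact hPVG P A g B v q θ t α β γ c hL ht hP hA hB hne.1 hne.2 hqc
  have v2B := hVB1 P A g B v q θ hL (hq0 hαγ)
  rcases hαγ with ha | hg
  · -- `α = 0`: replace `t` by `-t`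
    have hP' : P = ZL (-t) := by
      rw [hP]
      ext x
      constructor
      · rintro ⟨n, rfl⟩
        exact ⟨-n, by push_cast; ring⟩
      · rintro ⟨n, rfl⟩
        exact ⟨-n, by push_cast; ring⟩
    refine PEN_core hSQC hPCO P A g B v q θ hL hA (-t) γ β (neg_ne_zero.mpr ht) hP' ?_ ?_ v2B
    · rw [div_neg, neg_sq, ← hsum, ha]; ring
    · intro x hx
      have hy : exp (2 * Real.pi * I * x / t) ≠ 1 := by
        intro h1
        rw [PEN_exp1 t ht x, ← hP] at h1
        exact hx h1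
      have hy0 : exp (2 * Real.pi * I * x / t) ≠ 0 := Complex.exp_ne_zero _
      rw [hB x hx, ha, div_neg, Complex.exp_neg]
      generalize exp (2 * Real.pi * I * x / t) = y at *
      have h1 : y - 1 ≠ 0 := sub_ne_zero.mpr hy
      have h2 : y⁻¹ - 1 ≠ 0 := by
        intro h
        exact hy (inv_eq_one.mp (sub_eq_zero.mp h))
      have h3 : y⁻¹ - 1 = -(y - 1) / y := by
        field_simp
        ring
      rw [h3]
      field_simp
      ring
  · refine PEN_core hSQC hPCO P A g B v q θ hL hA t α β ht hP ?_ ?_ v2B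
    · rw [← hsum, hg]; ring
    · intro x hx
      rw [hB x hx, hg, add_zero]

end XPE
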